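import Pool.Agent.Work.MP_29d410_ag.ZM

/-!
# Mordell-Lang for subgroups of finite rank over function fields, in every characteristic
-/

universe u

/-- Let `K₀ ⊆ K` be algebraically closed fields, `A` an abelian variety over `K`, `X` a subvariety
and `Λ` a subgroup of finite rank of `A (K)` such that `Λ ∩ X` is dense in `X`.  Then `X` is
special. -/
theorem Pool.Agent.Results.MP_29d410_ag.MordellLang.result (K₀ K : Type u)
    [Field K₀] [IsAlgClosed K₀] [Field K] [IsAlgClosed K] [Algebra K₀ K] (n : ℕ)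
    (A : MLF.AV K n) (X : Set A.pts) (hX : MLF.IsSubvar X) (Λ : AddSubgroup A.pts)
    (hΛ : MLF.FinRank Λ)
    (hd : X ⊆ closure ((Λ : Set A.pts) ∩ X)) : MLF.IsSpecial (algebraMap K₀ K) A X :=
  MLF.mordell_lang_all (algebraMap K₀ K) A hX hΛ hd
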